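import Mathlib

/-!
# Definitions (restricted isometry for orbits of a transitive permutation group)

`Y` is a finite set, `H` a real inner product space.  A family `A : Y → H` is thought of as the
operator `f ↦ app A f = ∑ v, f v • A v` from `ℝ^Y` to `H`; `OpB A η` says that its norm is at most
`η`.  Signs are `ε : Y → Bool`; `sgI I ε` is the vector of the signs restricted to `I`.
-/

namespace Pool.Agent.H38.RP

/-- `±1` -/
def sg (b : Bool) : ℝ := if b then 1 else -1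

lemma sg_sq (b : Bool) : sg b ^ 2 = 1 := by cases b <;> simp [sg]

/-- the vector of the signs `ε`, restricted to `I` -/
def sgI {Y : Type} [DecidableEq Y] (I : Finset Y) (ε : Y → Bool) (v : Y) : ℝ :=
  if v ∈ I then sg (ε v) else 0

/-- the vector `A f` -/
noncomputable def app {Y H : Type} [Fintype Y] [AddCommMonoid H] [Module ℝ H] (A : Y → H)
    (f : Y → ℝ) : H := ∑ v, f v • A v

/-- the norm of `f ↦ app A f` is at most `η` -/
def OpB {Y H : Type} [Fintype Y] [NormedAddCommGroup H] [InnerProductSpace ℝ H] (A : Y → H)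
    (η : ℝ) : Prop := ∀ f : Y → ℝ, ‖app A f‖ ^ 2 ≤ η ^ 2 * ∑ v, f v ^ 2

/-- the matrix `A^* B` -/
noncomputable def gram {Y H : Type} [NormedAddCommGroup H] [InnerProductSpace ℝ H]
    (A B : Y → H) : Matrix Y Y ℝ := Matrix.of fun v v' => inner ℝ (A v) (B v')

section

variable {Y H : Type} [Fintype Y] [NormedAddCommGroup H] [InnerProductSpace ℝ H]

lemma app_sub (A B : Y → H) (f : Y → ℝ) : app (fun v => A v - B v) f = app A f - app B f := by
  simp only [app, smul_sub, Finset.sum_sub_distrib]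

lemma app_add (A B : Y → H) (f : Y → ℝ) : app (fun v => A v + B v) f = app A f + app B f := by
  simp only [app, smul_add, Finset.sum_add_distrib]

lemma app_smul (A : Y → H) (c : ℝ) (f : Y → ℝ) : app (fun v => c • A v) f = c • app A f := by
  simp only [app, Finset.smul_sum]
  exact Finset.sum_congr rfl fun v _ => smul_comm _ _ _

lemma OpB.norm_le {A : Y → H} {η : ℝ} (h : OpB A η) (hη : 0 ≤ η) (f : Y → ℝ) :
    ‖app A f‖ ≤ η * √(∑ v, f v ^ 2) := by
  have h1 := h f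
  have h2 : 0 ≤ ∑ v, f v ^ 2 := Finset.sum_nonneg fun v _ => sq_nonneg _
  have h3 : (η * √(∑ v, f v ^ 2)) ^ 2 = η ^ 2 * ∑ v, f v ^ 2 := by
    rw [mul_pow, Real.sq_sqrt h2]
  rw [← h3] at h1
  exact (pow_le_pow_iff_left₀ (norm_nonneg _) (by positivity) (by norm_num)).1 h1

lemma opB_of_norm {A : Y → H} {η : ℝ} (h : ∀ f : Y → ℝ, ‖app A f‖ ≤ η * √(∑ v, f v ^ 2)) :
    OpB A η := by
  intro f
  have h2 : 0 ≤ ∑ v, f v ^ 2 := Finset.sum_nonneg fun v _ => sq_nonneg _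
  calc ‖app A f‖ ^ 2 ≤ (η * √(∑ v, f v ^ 2)) ^ 2 :=
        pow_le_pow_left₀ (norm_nonneg _) (h f) 2
    _ = _ := by rw [mul_pow, Real.sq_sqrt h2]

lemma OpB.add {A B : Y → H} {η θ : ℝ} (hA : OpB A η) (hB : OpB B θ) (hη : 0 ≤ η) (hθ : 0 ≤ θ) :
    OpB (fun v => A v + B v) (η + θ) := by
  refine opB_of_norm fun f => ?_
  rw [app_add, add_mul]
  exact le_trans (norm_add_le _ _) (add_le_add (hA.norm_le hη f) (hB.norm_le hθ f))

lemma OpB.sub {A B : Y → H} {η θ : ℝ} (hA : OpB A η) (hB : OpB B θ) (hη : 0 ≤ η) (hθ : 0 ≤ θ) :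
    OpB (fun v => A v - B v) (η + θ) := by
  refine opB_of_norm fun f => ?_
  rw [app_sub, add_mul]
  exact le_trans (norm_sub_le _ _) (add_le_add (hA.norm_le hη f) (hB.norm_le hθ f))

lemma OpB.smul {A : Y → H} {η : ℝ} (hA : OpB A η) (hη : 0 ≤ η) (c : ℝ) :
    OpB (fun v => c • A v) (|c| * η) := by
  refine opB_of_norm fun f => ?_
  rw [app_smul, norm_smul, Real.norm_eq_abs, mul_assoc]
  exact mul_le_mul_of_nonneg_left (hA.norm_le hη f) (abs_nonneg _)

/-- the adjoint: `∑ v, ⟪A v, u⟫² ≤ η² ‖u‖²` -/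
lemma OpB.adj {A : Y → H} {η : ℝ} (hA : OpB A η) (hη : 0 ≤ η) (u : H) :
    ∑ v, (inner ℝ (A v) u) ^ 2 ≤ η ^ 2 * ‖u‖ ^ 2 := by
  set f : Y → ℝ := fun v => inner ℝ (A v) u with hf
  have h1 : inner ℝ (app A f) u = ∑ v, f v ^ 2 := by
    simp only [app, sum_inner, inner_smul_left, RCLike.conj_to_real]
    refine Finset.sum_congr rfl fun v _ => ?_
    simp only [hf]; ring
  have hS : 0 ≤ ∑ v, f v ^ 2 := Finset.sum_nonneg fun v _ => sq_nonneg _
  have h2 : ∑ v, f v ^ 2 ≤ η * √(∑ v, f v ^ 2) * ‖u‖ := by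
    calc ∑ v, f v ^ 2 = inner ℝ (app A f) u := h1.symm
      _ ≤ ‖app A f‖ * ‖u‖ := real_inner_le_norm _ _
      _ ≤ _ := mul_le_mul_of_nonneg_right (hA.norm_le hη f) (norm_nonneg _)
  have h3 : √(∑ v, f v ^ 2) ≤ η * ‖u‖ := by
    rcases (Real.sqrt_nonneg (∑ v, f v ^ 2)).eq_or_lt with h | h
    · rw [← h]; positivity
    · have h4 : √(∑ v, f v ^ 2) * √(∑ v, f v ^ 2) ≤ η * ‖u‖ * √(∑ v, f v ^ 2) := by
        rw [Real.mul_self_sqrt hS]; linarith
      exact le_of_mul_le_mul_right h4 h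
  calc ∑ v, f v ^ 2 = √(∑ v, f v ^ 2) ^ 2 := (Real.sq_sqrt hS).symm
    _ ≤ (η * ‖u‖) ^ 2 := pow_le_pow_left₀ (Real.sqrt_nonneg _) h3 2
    _ = _ := by ring

end

end Pool.Agent.H38.RP
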