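import Pool.Agent.H38.RP.Perm
import Pool.Agent.H38.CM.CPlusU

/-! The theorem for all CM fields. -/

open NumberField Module Pool.Agent.H38.CM

namespace Pool.Agent.H38.RP

theorem all_cm_near_linear (K : Type) [Field K] [NumberField K] [IsCMField K] (g : ℕ)
    (hg : finrank ℚ K = 2 * g) (P : ℕ) (hP : 1 ≤ P) :
    Nat.card {Φ : Set (K →+* ℂ) // IsCMType Φ ∧ ∃ p ≤ P, ¬ DivisorGenerated Φ p} *
      g ^ (Nat.clog 2 (4 * g) ^ 2) ≤
      2 ^ g * (2 ^ 16 * P * Nat.clog 2 (4 * g) ^ 4) ^ (Nat.clog 2 (4 * g) ^ 2) := by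
  classical
  have hg1 : 1 ≤ g := by
    have := finrank_pos (R := ℚ) (M := K)
    omega
  have hcard : Fintype.card (K →+* ℂ) = 2 * g := by
    rw [NumberField.Embeddings.card K ℂ, hg]
  have h1 := near_linear_perm (X := K →+* ℂ) ComplexEmbedding.conjugate
    (ComplexEmbedding.involutive_conjugate K) conjugate_ne_of_cm (galGroup K)
    (fun π hπ x => hπ.2 x) (fun x y => by
      obtain ⟨π, h1, h2, h3⟩ := exists_galPerm x y
      exact ⟨π, ⟨h1, h3⟩, h2⟩) g hcard hg1 P (Nat.clog 2 (4 * g)) hP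
    (Nat.le_pow_clog (by norm_num) _)
  refine le_trans (Nat.mul_le_mul_right _ ?_) h1
  refine Nat.card_le_card_of_injective (Subtype.map id ?_)
    (Subtype.map_injective _ Function.injective_id)
  rintro Φ ⟨hΦ, p, hp, hnd⟩
  refine ⟨hΦ, p, hp, ?_⟩
  by_contra hcon
  apply hnd
  refine hodge_main Φ hΦ p fun m hm => ?_
  by_contra hns
  push Not at hns
  exact hcon ⟨m, hm.1, hns, fun π hπ => hm.2 π hπ.1⟩

end Pool.Agent.H38.RP
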